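import Pool.Agent.Helper43_PQP.Source
import Pool.Agent.PQP.StmtsT

/-!
# Row DOL of PQP: the finite dimensional winding theorem
-/

set_option autoImplicit false

noncomputable section

namespace Pool.Agent.PQP.H43

open Pool.Agent.Helper73_CrossIndex Filter Topology

lemma norm_prw (W : ℤ) (z : ℂ) : ‖prw W z‖ = ‖z‖ := by
  unfold prw
  by_cases hz : z = 0
  · subst hz; simp
  · have h1 : ‖z‖ ≠ 0 := norm_ne_zero_iff.2 hz
    rw [norm_mul, norm_zpow, norm_div, Complex.norm_real, norm_norm, div_self h1, one_zpow, mul_one]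

lemma continuous_prw (W : ℤ) : Continuous (prw W) := by
  rw [continuous_iff_continuousAt]
  intro z
  by_cases hz : z = 0
  · subst hz
    have h0 : prw W 0 = 0 := by unfold prw; simp
    unfold ContinuousAt
    rw [h0, tendsto_zero_iff_norm_tendsto_zero]
    have : (fun z => ‖prw W z‖) = fun z : ℂ => ‖z‖ := funext fun z => norm_prw W z
    rw [this]
    have := (continuous_norm (E := ℂ)).tendsto 0
    simpa using this
  · have h1 : (‖z‖ : ℂ) ≠ 0 := by
      rw [Complex.ofReal_ne_zero]; exact norm_ne_zero_iff.2 hz
    have h2 : z / (‖z‖ : ℂ) ≠ 0 := div_ne_zero hz h1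
    have hn : ContinuousAt (fun z : ℂ => (‖z‖ : ℂ)) z :=
      (Complex.continuous_ofReal.comp continuous_norm).continuousAt
    unfold prw
    exact hn.mul ((continuousAt_id.div hn h1).zpow₀ W (Or.inl h2))

lemma rt_zpow {p : ℕ} [NeZero p] (W : ℤ) (h : ZMod p) : rt p h ^ W = rt p ((W : ZMod p) * h) := by
  have hnat : ∀ n : ℕ, rt p h ^ n = rt p ((n : ZMod p) * h) := by
    intro n
    induction n with
    | zero => simp [rt_zero]
    | succ n ih =>
      rw [pow_succ, ih, ← rt_add]
      congr 1
      push_cast; ring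
  rcases Int.eq_nat_or_neg W with ⟨n, rfl | rfl⟩
  · rw [zpow_natCast, hnat]; simp
  · rw [zpow_neg, zpow_natCast, hnat]
    have h1 := rt_neg ((n : ZMod p) * h)
    rw [inv_eq_of_mul_eq_one_left h1]
    congr 1
    push_cast; ring

lemma prw_rt {p : ℕ} [NeZero p] (W : ℤ) (h : ZMod p) (z : ℂ) :
    prw W (rt p h * z) = rt p ((W : ZMod p) * h) * prw W z := by
  unfold prw
  rw [norm_mul, norm_rt, one_mul, mul_div_assoc, mul_zpow, rt_zpow]
  ring

/-- the model map -/
def mdl (W : ℤ) (n : ℕ) (u : Fin (n + 1) → ℂ) (j : Fin (n + 1)) : ℂ :=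
  if j = 0 then prw W (u 0) else u j

/-- the complexified map -/
def cpx (W : ℤ) (n : ℕ) (g : ℂ × (Fin n → ℝ) → ℂ × (Fin n → ℝ)) (u : Fin (n + 1) → ℂ) :
    Fin (n + 1) → ℂ :=
  Fin.cons
    (((1 - min 1 ‖fun i : Fin n => (u i.succ).im‖ : ℝ) : ℂ) * (g (u 0, fun i => (u i.succ).re)).1
      + ((min 1 ‖fun i : Fin n => (u i.succ).im‖ : ℝ) : ℂ) * prw W (u 0))
    (fun i => (((1 - min 1 ‖fun i : Fin n => (u i.succ).im‖)
        * (g (u 0, fun i => (u i.succ).re)).2 i
      + (min 1 ‖fun i : Fin n => (u i.succ).im‖) * (u i.succ).re : ℝ) : ℂ)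
      + ((u i.succ).im : ℂ) * Complex.I)

lemma continuous_cpx (W : ℤ) (n : ℕ) (g : ℂ × (Fin n → ℝ) → ℂ × (Fin n → ℝ)) (hg : Continuous g) :
    Continuous (cpx W n g) := by
  have hre : Continuous fun u : Fin (n + 1) → ℂ => fun i : Fin n => (u i.succ).re :=
    continuous_pi fun i => Complex.continuous_re.comp (continuous_apply _)
  have him : Continuous fun u : Fin (n + 1) → ℂ => fun i : Fin n => (u i.succ).im :=
    continuous_pi fun i => Complex.continuous_im.comp (continuous_apply _)
  have h0 : Continuous fun u : Fin (n + 1) → ℂ => u 0 := continuous_apply 0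
  have hl : Continuous fun u : Fin (n + 1) → ℂ => min (1 : ℝ) ‖fun i : Fin n => (u i.succ).im‖ :=
    continuous_const.min him.norm
  have hgc : Continuous fun u : Fin (n + 1) → ℂ => g (u 0, fun i => (u i.succ).re) :=
    hg.comp (h0.prodMk hre)
  have hprw : Continuous fun u : Fin (n + 1) → ℂ => prw W (u 0) := (continuous_prw W).comp h0
  refine continuous_pi fun j => ?_
  refine Fin.cases ?_ (fun i => ?_) j
  · simp only [cpx, Fin.cons_zero]
    exact ((Complex.continuous_ofReal.comp (continuous_const.sub hl)).mul
      (continuous_fst.comp hgc)).add ((Complex.continuous_ofReal.comp hl).mul hprw)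
  · simp only [cpx, Fin.cons_succ]
    refine Continuous.add (Complex.continuous_ofReal.comp ?_) ?_
    · refine ((continuous_const.sub hl).mul ?_).add (hl.mul ?_)
      · exact (continuous_apply i).comp (continuous_snd.comp hgc)
      · exact (continuous_apply i).comp hre
    · exact (Complex.continuous_ofReal.comp ((continuous_apply i).comp him)).mul continuous_const

/-- **Row DOL.** -/
theorem dol : Pool.Agent.PQP.DolStmt := by
  classical
  intro n W g R hW hg hgR
  by_contra hcon
  push Not at hcon
  obtain ⟨p, hpW, hp⟩ := Nat.exists_infinite_primes (W.natAbs + 3)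
  have : Fact p.Prime := ⟨hp⟩
  have hodd : Odd p := hp.odd_of_ne_two (by omega)
  have hWp : (W : ZMod p) ≠ 0 := by
    intro h
    rw [ZMod.intCast_zmod_eq_zero_iff_dvd] at h
    have h1 := Int.natAbs_dvd_natAbs.2 h
    rw [Int.natAbs_natCast] at h1
    have h2 := Nat.le_of_dvd (Int.natAbs_pos.2 hW) h1
    omega
  set a : Fin (n + 1) → ZMod p := fun j => if j = 0 then (W : ZMod p) else 1 with ha
  refine cplx (p := p) hodd n a ?_ (mdl W n) (cpx W n g) ?_ (continuous_cpx W n g hg)
    (max R 0 + 1) ?_ ?_
  · intro j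
    simp only [ha]
    split_ifs
    · exact hWp.isUnit
    · exact isUnit_one
  · intro h u j
    simp only [mdl, ha]
    split_ifs with hj
    · exact prw_rt W h (u 0)
    · rw [one_mul]
  · intro u hu
    have hl : R ≤ ‖((u 0, fun i : Fin n => (u i.succ).re) : ℂ × (Fin n → ℝ))‖ ∨
        min (1 : ℝ) ‖fun i : Fin n => (u i.succ).im‖ = 1 := by
      by_contra hc
      push Not at hc
      obtain ⟨hc1, hc2⟩ := hc
      have hc3 : ‖fun i : Fin n => (u i.succ).im‖ < 1 := by
        by_contra h
        exact hc2 (min_eq_left (not_lt.1 h))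
      have hpos : 0 < max R 0 + 1 := by have := le_max_right R 0; linarith
      have : ‖u‖ < max R 0 + 1 := by
        rw [pi_norm_lt_iff hpos]
        intro j
        have hR : ‖((u 0, fun i : Fin n => (u i.succ).re) : ℂ × (Fin n → ℝ))‖ < max R 0 :=
          lt_of_lt_of_le hc1 (le_max_left _ _)
        rw [Prod.norm_def] at hR
        have hR1 : ‖u 0‖ < max R 0 := lt_of_le_of_lt (le_max_left _ _) hR
        have hR2 : ‖fun i : Fin n => (u i.succ).re‖ < max R 0 :=
          lt_of_le_of_lt (le_max_right _ _) hR
        refine Fin.cases ?_ (fun i => ?_) j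
        · linarith
        · have h1 : |(u i.succ).re| ≤ ‖fun i : Fin n => (u i.succ).re‖ :=
            norm_le_pi_norm (fun i : Fin n => (u i.succ).re) i
          have h2 : |(u i.succ).im| ≤ ‖fun i : Fin n => (u i.succ).im‖ :=
            norm_le_pi_norm (fun i : Fin n => (u i.succ).im) i
          have h3 := Complex.norm_le_abs_re_add_abs_im (u i.succ)
          linarith
      exact absurd hu (not_le.2 this)
    funext j
    rcases hl with hl | hl
    · have hgu := hgR _ hl
      refine Fin.cases ?_ (fun i => ?_) j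
      · simp only [cpx, Fin.cons_zero, mdl, if_true]
        rw [hgu]
        push_cast
        ring
      · simp only [cpx, Fin.cons_succ, mdl, Fin.succ_ne_zero, if_false]
        rw [hgu]
        apply Complex.ext
        · simp
          ring
        · simp
    · refine Fin.cases ?_ (fun i => ?_) j
      · simp only [cpx, Fin.cons_zero, mdl, if_true]
        rw [hl]
        push_cast
        ring
      · simp only [cpx, Fin.cons_succ, mdl, Fin.succ_ne_zero, if_false]
        rw [hl]
        apply Complex.ext
        · simp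
        · simp
  · intro u hu
    have him : ∀ i : Fin n, (u i.succ).im = 0 := by
      intro i
      have h1 := congrFun hu i.succ
      simp only [cpx, Fin.cons_succ, Pi.zero_apply] at h1
      have h2 := congrArg Complex.im h1
      simpa using h2
    have hl : min (1 : ℝ) ‖fun i : Fin n => (u i.succ).im‖ = 0 := by
      have : (fun i : Fin n => (u i.succ).im) = 0 := funext him
      rw [this, norm_zero]
      exact min_eq_right zero_le_one
    apply hcon (u 0, fun i => (u i.succ).re)
    apply Prod.ext
    · have h1 := congrFun hu 0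
      simp only [cpx, Fin.cons_zero, Pi.zero_apply] at h1
      rw [hl] at h1
      simpa using h1
    · funext i
      have h1 := congrFun hu i.succ
      simp only [cpx, Fin.cons_succ, Pi.zero_apply] at h1
      rw [hl] at h1
      have h2 := congrArg Complex.re h1
      simpa using h2

end Pool.Agent.PQP.H43
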