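import Mathlib

/-!
# Roots of unity and the bump functions of the target (for the row DOL of PQP)
-/

set_option autoImplicit false

noncomputable section

namespace Pool.Agent.PQP.H43

open Complex

/-- the `k`-th power of `exp (2 pi i / p)` -/
def rt (p : ℕ) [NeZero p] (k : ZMod p) : ℂ := (ZMod.toCircle k : ℂ)

variable {p : ℕ} [NeZero p]

lemma rt_add (k l : ZMod p) : rt p (k + l) = rt p k * rt p l := by
  unfold rt
  rw [AddChar.map_add_eq_mul]
  simp

lemma rt_zero : rt p 0 = 1 := by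
  unfold rt
  rw [AddChar.map_zero_eq_one]
  simp

lemma norm_rt (k : ZMod p) : ‖rt p k‖ = 1 := Circle.norm_coe (ZMod.toCircle k)

lemma rt_ne_zero (k : ZMod p) : rt p k ≠ 0 := by
  rw [← norm_pos_iff, norm_rt]; exact one_pos

lemma rt_neg (k : ZMod p) : rt p (-k) * rt p k = 1 := by
  rw [← rt_add, neg_add_cancel, rt_zero]

lemma rt_pow (k : ZMod p) : rt p k ^ p = 1 := by
  have : ∀ n : ℕ, rt p k ^ n = rt p (n • k) := by
    intro n
    induction n with
    | zero => simp [rt_zero]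
    | succ n ih => rw [pow_succ, ih, succ_nsmul, rt_add]
  rw [this]
  simp [rt_zero]

lemma rt_intCast (j : ℤ) : rt p (j : ZMod p) = Complex.exp (((2 * Real.pi * j / p : ℝ) : ℂ) * I) := by
  unfold rt
  rw [ZMod.toCircle_intCast]
  congr 1
  push_cast
  ring

/-- the bump functions -/
def bmp (p : ℕ) [NeZero p] (b : ℕ) (k : ZMod p) (v : ℂ) : ℝ :=
  max 0 ((v * (starRingEnd ℂ) (Complex.exp (((b * Real.pi / p : ℝ) : ℂ) * I) * rt p k)).re
    - Real.cos (Real.pi / p) * ‖v‖)

lemma bmp_nonneg (b : ℕ) (k : ZMod p) (v : ℂ) : 0 ≤ bmp p b k v := le_max_left _ _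

lemma continuous_bmp (b : ℕ) (k : ZMod p) : Continuous (bmp p b k) := by
  unfold bmp
  fun_prop

lemma bmp_equiv (b : ℕ) (h k : ZMod p) (v : ℂ) : bmp p b (h + k) (rt p h * v) = bmp p b k v := by
  unfold bmp
  have h1 : (starRingEnd ℂ) (rt p h) * rt p h = 1 := by
    rw [mul_comm, Complex.mul_conj, Complex.normSq_eq_norm_sq, norm_rt]; simp
  have h2 : rt p h * v * (starRingEnd ℂ) (Complex.exp (((b * Real.pi / p : ℝ) : ℂ) * I) * rt p (h + k))
      = v * (starRingEnd ℂ) (Complex.exp (((b * Real.pi / p : ℝ) : ℂ) * I) * rt p k) := by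
    rw [rt_add, map_mul, map_mul, map_mul]
    linear_combination (v * (starRingEnd ℂ) (Complex.exp (((b * Real.pi / p : ℝ) : ℂ) * I))
      * (starRingEnd ℂ) (rt p k)) * h1
  rw [h2, norm_mul, norm_rt, one_mul]

/-- real form of the bump functions -/
lemma re_form (b : ℕ) (j : ℤ) (v : ℂ) :
    (v * (starRingEnd ℂ) (Complex.exp (((b * Real.pi / p : ℝ) : ℂ) * I) * rt p (j : ZMod p))).re
      = ‖v‖ * Real.cos (v.arg - b * Real.pi / p - 2 * Real.pi * j / p) := by
  rw [rt_intCast, ← Complex.exp_add, ← Complex.exp_conj]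
  conv_lhs => rw [← Complex.norm_mul_exp_arg_mul_I v]
  rw [mul_assoc, ← Complex.exp_add, Complex.re_ofReal_mul]
  congr 1
  have : ((v.arg : ℝ) : ℂ) * I + (starRingEnd ℂ) (((b * Real.pi / p : ℝ) : ℂ) * I
      + ((2 * Real.pi * j / p : ℝ) : ℂ) * I)
      = ((v.arg - b * Real.pi / p - 2 * Real.pi * j / p : ℝ) : ℂ) * I := by
    rw [map_add, map_mul, map_mul, Complex.conj_I, Complex.conj_ofReal, Complex.conj_ofReal]
    push_cast
    ring
  rw [this, Complex.exp_ofReal_mul_I_re]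

/-- `cos y < cos x` with `0 ≤ y ≤ π` says that `x` is at distance `< y` of a multiple of `2π` -/
lemma near_of_cos {x y : ℝ} (h0 : 0 ≤ y) (h1 : y ≤ Real.pi) (h : Real.cos y < Real.cos x) :
    ∃ a : ℤ, |x - a * (2 * Real.pi)| < y := by
  have hp := Real.pi_pos
  refine ⟨round (x / (2 * Real.pi)), ?_⟩
  set a := round (x / (2 * Real.pi)) with ha
  have h2 : |x / (2 * Real.pi) - a| ≤ 1 / 2 := abs_sub_round _
  have h3 : |x - a * (2 * Real.pi)| ≤ Real.pi := by
    have : x - a * (2 * Real.pi) = (x / (2 * Real.pi) - a) * (2 * Real.pi) := by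
      field_simp
    rw [this, abs_mul, abs_of_pos (by positivity : (0:ℝ) < 2 * Real.pi)]
    nlinarith
  have h4 : Real.cos |x - a * (2 * Real.pi)| = Real.cos x := by
    rw [Real.cos_abs, Real.cos_sub_int_mul_two_pi]
  by_contra hcon
  push Not at hcon
  have h5 : Real.cos |x - a * (2 * Real.pi)| ≤ Real.cos y :=
    Real.cos_le_cos_of_nonneg_of_le_pi h0 h3 hcon
  rw [h4] at h5
  exact absurd h (not_lt.2 h5)

lemma near_of_bmp {b : ℕ} {j : ℤ} {v : ℂ} (hp : 1 ≤ p) (h : 0 < bmp p b (j : ZMod p) v) :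
    ∃ a : ℤ, |v.arg - b * Real.pi / p - 2 * Real.pi * j / p - a * (2 * Real.pi)| < Real.pi / p := by
  have hp' : (1 : ℝ) ≤ p := by exact_mod_cast hp
  have hpi := Real.pi_pos
  have h1 : 0 < (v * (starRingEnd ℂ) (Complex.exp (((b * Real.pi / p : ℝ) : ℂ) * I)
      * rt p (j : ZMod p))).re - Real.cos (Real.pi / p) * ‖v‖ := by
    unfold bmp at h
    rcases lt_max_iff.1 h with h | h
    · exact absurd h (lt_irrefl _)
    · exact h
  rw [re_form] at h1
  have hv : 0 < ‖v‖ := by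
    rcases (norm_nonneg v).lt_or_eq with h2 | h2
    · exact h2
    · rw [← h2] at h1; simp at h1
  have h2 : Real.cos (Real.pi / p)
      < Real.cos (v.arg - b * Real.pi / p - 2 * Real.pi * j / p) := by
    by_contra hcon
    push Not at hcon
    nlinarith
  refine near_of_cos (by positivity) ?_ h2
  rw [div_le_iff₀ (by positivity)]
  nlinarith

lemma bmp_unique (b : ℕ) (k k' : ZMod p) (v : ℂ) (hp : 1 ≤ p) (h : 0 < bmp p b k v)
    (h' : 0 < bmp p b k' v) : k = k' := by
  have hp' : (1 : ℝ) ≤ p := by exact_mod_cast hp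
  have hpi := Real.pi_pos
  obtain ⟨j, rfl⟩ := ZMod.intCast_surjective k
  obtain ⟨j', rfl⟩ := ZMod.intCast_surjective k'
  obtain ⟨a, ha⟩ := near_of_bmp hp h
  obtain ⟨a', ha'⟩ := near_of_bmp hp h'
  have h1 : |2 * Real.pi / p * ((j - j' + (a - a') * p : ℤ) : ℝ)| < 2 * Real.pi / p := by
    have e : 2 * Real.pi / p * ((j - j' + (a - a') * p : ℤ) : ℝ)
        = (v.arg - b * Real.pi / p - 2 * Real.pi * j' / p - a' * (2 * Real.pi))
          - (v.arg - b * Real.pi / p - 2 * Real.pi * j / p - a * (2 * Real.pi)) := by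
      push_cast
      field_simp
      ring
    rw [e]
    calc _ ≤ |v.arg - b * Real.pi / p - 2 * Real.pi * j' / p - a' * (2 * Real.pi)|
          + |v.arg - b * Real.pi / p - 2 * Real.pi * j / p - a * (2 * Real.pi)| := abs_sub _ _
      _ < Real.pi / p + Real.pi / p := add_lt_add ha' ha
      _ = 2 * Real.pi / p := by ring
  have h2 : |((j - j' + (a - a') * p : ℤ) : ℝ)| < 1 := by
    rw [abs_mul, abs_of_pos (by positivity : (0:ℝ) < 2 * Real.pi / p)] at h1
    have : 0 < 2 * Real.pi / p := by positivity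
    by_contra hcon
    push Not at hcon
    nlinarith
  have h3 : j - j' + (a - a') * p = 0 := by
    rw [← Int.cast_abs] at h2
    have : |j - j' + (a - a') * p| < 1 := by exact_mod_cast h2
    exact Int.abs_lt_one_iff.1 this
  have h4 : ((j - j' + (a - a') * p : ℤ) : ZMod p) = 0 := by rw [h3]; simp
  push_cast at h4
  simp at h4
  exact sub_eq_zero.1 h4

lemma bmp_exists (v : ℂ) (hv : v ≠ 0) (hp : 1 ≤ p) :
    ∃ b : ℕ, b < 2 ∧ ∃ k : ZMod p, 0 < bmp p b k v := by
  have hp' : (1 : ℝ) ≤ p := by exact_mod_cast hp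
  have hpi := Real.pi_pos
  set m : ℤ := round (v.arg * p / Real.pi) with hm
  have h1 : |v.arg * p / Real.pi - m| ≤ 1 / 2 := abs_sub_round _
  have h2 : |v.arg - m * Real.pi / p| ≤ Real.pi / (2 * p) := by
    have e : v.arg - m * Real.pi / p = (v.arg * p / Real.pi - m) * (Real.pi / p) := by
      field_simp
    rw [e, abs_mul, abs_of_pos (by positivity : (0:ℝ) < Real.pi / p)]
    have : Real.pi / (2 * p) = 1 / 2 * (Real.pi / p) := by ring
    rw [this]
    exact mul_le_mul_of_nonneg_right h1 (by positivity)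
  have hb0 : 0 ≤ m % 2 := Int.emod_nonneg _ (by norm_num)
  have hb1 : m % 2 < 2 := Int.emod_lt_of_pos _ (by norm_num)
  refine ⟨(m % 2).toNat, by omega, ((m / 2 : ℤ) : ZMod p), ?_⟩
  unfold bmp
  rw [lt_max_iff]
  right
  rw [re_form]
  have hmm : ((m % 2).toNat : ℝ) = ((m % 2 : ℤ) : ℝ) := by
    have : (((m % 2).toNat : ℤ) : ℝ) = ((m % 2 : ℤ) : ℝ) := by rw [Int.toNat_of_nonneg hb0]
    exact_mod_cast this
  have e : v.arg - ((m % 2).toNat : ℝ) * Real.pi / p - 2 * Real.pi * ((m / 2 : ℤ) : ℝ) / p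
      = v.arg - m * Real.pi / p := by
    rw [hmm]
    have h3 : (m : ℝ) = 2 * ((m / 2 : ℤ) : ℝ) + ((m % 2 : ℤ) : ℝ) := by
      exact_mod_cast (Int.mul_ediv_add_emod m 2).symm
    rw [h3]
    ring
  rw [e]
  have h4 : Real.cos (Real.pi / p) < Real.cos (v.arg - m * Real.pi / p) := by
    rw [← Real.cos_abs (v.arg - m * Real.pi / p)]
    refine Real.cos_lt_cos_of_nonneg_of_le_pi (abs_nonneg _) ?_ ?_
    · rw [div_le_iff₀ (by positivity)]; nlinarith
    · refine lt_of_le_of_lt h2 ?_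
      rw [div_lt_div_iff₀ (by positivity) (by positivity)]
      nlinarith
  have hv' : 0 < ‖v‖ := norm_pos_iff.2 hv
  nlinarith

lemma bmp_zero (b : ℕ) (k : ZMod p) : bmp p b k 0 = 0 := by
  unfold bmp; simp

end Pool.Agent.PQP.H43
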