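import Pool.Agent.Helper43_PQP.Target

/-!
# The complex form of the winding theorem (for the row DOL of PQP)
-/

set_option autoImplicit false

noncomputable section

namespace Pool.Agent.PQP.H43

open Pool.Agent.Helper73_CrossIndex

variable {p : ℕ} [NeZero p]

/-- even level of a coordinate -/
def lv0 {m : ℕ} (j : Fin (m + 1)) : Fin (2 * m + 1 + 1 + 1) := ⟨2 * j.val, by omega⟩
/-- odd level of a coordinate -/
def lv1 {m : ℕ} (j : Fin (m + 1)) : Fin (2 * m + 1 + 1 + 1) := ⟨2 * j.val + 1, by omega⟩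
/-- top level -/
def tp (m : ℕ) : Fin (2 * m + 1 + 1 + 1) := ⟨2 * m + 2, by omega⟩

/-- contribution of one level -/
def Lv {m : ℕ} (x : EVertex (Gp p) (2 * m + 1 + 1) → ℝ) (i : Fin (2 * m + 1 + 1 + 1)) : ℂ :=
  ∑ g : Gp p, (x ⟨g, i⟩ : ℂ) * rt p (Multiplicative.toAdd g)

/-- the source vector -/
def src {m : ℕ} (x : EVertex (Gp p) (2 * m + 1 + 1) → ℝ) (j : Fin (m + 1)) : ℂ :=
  Lv x (lv0 j) + Lv x (lv1 j)

lemma continuous_src {m : ℕ} :
    Continuous (fun x : EVertex (Gp p) (2 * m + 1 + 1) → ℝ => src x) := by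
  refine continuous_pi fun j => ?_
  unfold src Lv
  refine Continuous.add ?_ ?_
  · exact continuous_finsetSum _ fun g _ =>
      (Complex.continuous_ofReal.comp (continuous_apply _)).mul continuous_const
  · exact continuous_finsetSum _ fun g _ =>
      (Complex.continuous_ofReal.comp (continuous_apply _)).mul continuous_const

lemma Lv_equiv {m : ℕ} (h : Gp p) (x : EVertex (Gp p) (2 * m + 1 + 1) → ℝ)
    (i : Fin (2 * m + 1 + 1 + 1)) :
    Lv (fun v => x (h⁻¹ • v)) i = rt p (Multiplicative.toAdd h) * Lv x i := by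
  unfold Lv
  rw [← Equiv.sum_comp (Equiv.mulLeft h), Finset.mul_sum]
  refine Finset.sum_congr rfl fun g _ => ?_
  have e : (h⁻¹ • (⟨h * g, i⟩ : EVertex (Gp p) (2 * m + 1 + 1))) = ⟨g, i⟩ :=
    EVertex.ext (inv_mul_cancel_left h g) rfl
  change ((x (h⁻¹ • (⟨h * g, i⟩ : EVertex (Gp p) (2 * m + 1 + 1))) : ℝ) : ℂ)
    * rt p (Multiplicative.toAdd (h * g)) = _
  rw [e, toAdd_mul, rt_add]
  ring

lemma src_equiv {m : ℕ} (h : Gp p) (x : (E (Gp p) (2 * m + 1 + 1)).Realization) (j : Fin (m + 1)) :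
    src (h • x).coord j = rt p (Multiplicative.toAdd h) * src x.coord j := by
  have e : (h • x).coord = fun v => x.coord (h⁻¹ • v) := rfl
  rw [e]
  unfold src
  rw [mul_add]
  exact congrArg₂ (· + ·) (Lv_equiv h x.coord _) (Lv_equiv h x.coord _)

lemma Lv_pow {m : ℕ} (x : (E (Gp p) (2 * m + 1 + 1)).Realization) (i : Fin (2 * m + 1 + 1 + 1))
    (_hp : p ≠ 0) :
    (Lv x.coord i) ^ p = ((∑ g : Gp p, x.coord (⟨g, i⟩ : EVertex (Gp p) (2 * m + 1 + 1)) : ℝ) : ℂ) ^ p := by
  classical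
  obtain ⟨s, hs, hx⟩ := x.support_subset
  by_cases h : ∃ g0 : Gp p, x.coord (⟨g0, i⟩ : EVertex (Gp p) (2 * m + 1 + 1)) ≠ 0
  · obtain ⟨g0, hg0⟩ := h
    have hz : ∀ g : Gp p, g ≠ g0 → x.coord (⟨g, i⟩ : EVertex (Gp p) (2 * m + 1 + 1)) = 0 := by
      intro g hg
      by_contra hcon
      have := hs.2 _ (hx _ hcon) _ (hx _ hg0) rfl
      exact hg (congrArg EVertex.elt this)
    have h1 : Lv x.coord i = (x.coord (⟨g0, i⟩ : EVertex (Gp p) (2 * m + 1 + 1)) : ℂ)
        * rt p (Multiplicative.toAdd g0) := by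
      unfold Lv
      refine Finset.sum_eq_single g0 (fun g _ hg => ?_) fun h => absurd (Finset.mem_univ _) h
      rw [hz g hg]; simp
    have h2 : ∑ g : Gp p, x.coord (⟨g, i⟩ : EVertex (Gp p) (2 * m + 1 + 1))
        = x.coord (⟨g0, i⟩ : EVertex (Gp p) (2 * m + 1 + 1)) :=
      Finset.sum_eq_single g0 (fun g _ hg => hz g hg) fun h => absurd (Finset.mem_univ _) h
    rw [h1, h2, mul_pow, rt_pow, mul_one]
  · push Not at h
    have h1 : Lv x.coord i = 0 := by
      unfold Lv
      refine Finset.sum_eq_zero fun g _ => ?_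
      rw [h g]; simp
    have h2 : ∑ g : Gp p, x.coord (⟨g, i⟩ : EVertex (Gp p) (2 * m + 1 + 1)) = 0 :=
      Finset.sum_eq_zero fun g _ => h g
    rw [h1, h2]
    simp

lemma src_ne_zero {m : ℕ} (hodd : Odd p) (x : (E (Gp p) (2 * m + 1 + 1)).Realization)
    (ht : ∀ g : Gp p, x.coord (⟨g, tp m⟩ : EVertex (Gp p) (2 * m + 1 + 1)) = 0) :
    src x.coord ≠ 0 := by
  classical
  intro h0
  have hp0 : p ≠ 0 := NeZero.ne p
  obtain ⟨v, hv⟩ : ∃ v : EVertex (Gp p) (2 * m + 1 + 1), x.coord v ≠ 0 := by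
    by_contra hcon
    push Not at hcon
    have h1 := x.sum_eq_one
    have h2 : ∑ v, x.coord v = 0 := Finset.sum_eq_zero fun v _ => hcon v
    rw [h2] at h1
    exact zero_ne_one h1
  have hlev : v.lev.val < 2 * m + 2 := by
    by_contra hcon
    have h1 : v.lev = tp m := by
      apply Fin.ext
      change v.lev.val = 2 * m + 2
      have := v.lev.isLt
      omega
    apply hv
    have h2 := ht v.elt
    have h3 : v = (⟨v.elt, tp m⟩ : EVertex (Gp p) (2 * m + 1 + 1)) := EVertex.ext rfl h1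
    rw [h3]; exact h2
  set j : Fin (m + 1) := ⟨v.lev.val / 2, by omega⟩ with hj
  have h1 : Lv x.coord (lv0 j) = - Lv x.coord (lv1 j) := by
    have := congrFun h0 j
    unfold src at this
    exact eq_neg_of_add_eq_zero_left this
  have h2 := Lv_pow x (lv0 j) hp0
  have h3 := Lv_pow x (lv1 j) hp0
  rw [h1, hodd.neg_pow, h3] at h2
  set s0 : ℝ := ∑ g : Gp p, x.coord (⟨g, lv0 j⟩ : EVertex (Gp p) (2 * m + 1 + 1)) with hs0
  set s1 : ℝ := ∑ g : Gp p, x.coord (⟨g, lv1 j⟩ : EVertex (Gp p) (2 * m + 1 + 1)) with hs1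
  have h4 : s0 ^ p + s1 ^ p = 0 := by
    have : ((s0 ^ p + s1 ^ p : ℝ) : ℂ) = 0 := by
      push_cast
      rw [← h2]; ring
    exact_mod_cast this
  have h50 : 0 ≤ s0 := Finset.sum_nonneg fun g _ => x.nonneg _
  have h51 : 0 ≤ s1 := Finset.sum_nonneg fun g _ => x.nonneg _
  have h60 : s0 ^ p = 0 := by
    have := pow_nonneg h50 p; have := pow_nonneg h51 p; linarith
  have h61 : s1 ^ p = 0 := by
    have := pow_nonneg h50 p; have := pow_nonneg h51 p; linarith
  have h70 : s0 = 0 := pow_eq_zero_iff hp0 |>.1 h60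
  have h71 : s1 = 0 := pow_eq_zero_iff hp0 |>.1 h61
  have h80 := (Finset.sum_eq_zero_iff_of_nonneg fun g _ => x.nonneg _).1 h70 v.elt (Finset.mem_univ _)
  have h81 := (Finset.sum_eq_zero_iff_of_nonneg fun g _ => x.nonneg _).1 h71 v.elt (Finset.mem_univ _)
  rcases Nat.mod_two_eq_zero_or_one v.lev.val with hm | hm
  · apply hv
    have h3 : v = (⟨v.elt, lv0 j⟩ : EVertex (Gp p) (2 * m + 1 + 1)) := by
      refine EVertex.ext rfl (Fin.ext ?_)
      change v.lev.val = 2 * (v.lev.val / 2)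
      omega
    rw [h3]; exact h80
  · apply hv
    have h3 : v = (⟨v.elt, lv1 j⟩ : EVertex (Gp p) (2 * m + 1 + 1)) := by
      refine EVertex.ext rfl (Fin.ext ?_)
      change v.lev.val = 2 * (v.lev.val / 2) + 1
      omega
    rw [h3]; exact h81

/-- complex form of the winding theorem -/
theorem cplx [Fact p.Prime] (hodd : Odd p) (m : ℕ) (a : Fin (m + 1) → ZMod p)
    (ha : ∀ j, IsUnit (a j)) (T G : (Fin (m + 1) → ℂ) → (Fin (m + 1) → ℂ))
    (hT : ∀ (h : ZMod p) u j, T (fun i => rt p h * u i) j = rt p (a j * h) * T u j)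
    (hG : Continuous G) (R : ℝ) (hGT : ∀ u, R ≤ ‖u‖ → G u = T u) (h0 : ∀ u, G u ≠ 0) : False := by
  classical
  -- lower bound of the source vector on the bottom
  obtain ⟨δ, hδ, hδ'⟩ : ∃ δ : ℝ, 0 < δ ∧ ∀ x : (E (Gp p) (2 * m + 1 + 1)).Realization,
      (∀ g : Gp p, x.coord (⟨g, tp m⟩ : EVertex (Gp p) (2 * m + 1 + 1)) = 0) →
        δ ≤ ‖src x.coord‖ := by
    set K : Set (EVertex (Gp p) (2 * m + 1 + 1) → ℝ) :=
      RSet (E (Gp p) (2 * m + 1 + 1)) ∩ {x | ∀ g : Gp p, x ⟨g, tp m⟩ = 0} with hK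
    have hKc : IsCompact K := by
      refine (isCompact_RSet (E (Gp p) (2 * m + 1 + 1))).inter_right ?_
      have : {x : EVertex (Gp p) (2 * m + 1 + 1) → ℝ | ∀ g : Gp p, x ⟨g, tp m⟩ = 0}
          = ⋂ g : Gp p, {x | x ⟨g, tp m⟩ = 0} := by ext; simp
      rw [this]
      exact isClosed_iInter fun g => isClosed_eq (continuous_apply _) continuous_const
    by_cases hne : K.Nonempty
    · obtain ⟨x0, hx0, hmin⟩ := hKc.exists_isMinOn hne (continuous_src.norm.continuousOn)
      refine ⟨‖src x0‖, ?_, fun x hx => ?_⟩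
      · rw [norm_pos_iff]
        exact src_ne_zero hodd (mkR _ ⟨x0, hx0.1⟩) hx0.2
      · exact hmin (⟨coord_mem x, hx⟩ : x.coord ∈ K)
    · refine ⟨1, one_pos, fun x hx => ?_⟩
      exact absurd ⟨x.coord, coord_mem x, hx⟩ hne
  set C : ℝ := |R| / δ with hC
  have hC0 : 0 ≤ C := div_nonneg (abs_nonneg _) hδ.le
  set ut : (E (Gp p) (2 * m + 1 + 1)).Realization → (Fin (m + 1) → ℂ) :=
    fun x j => (C : ℂ) * src x.coord j with hut
  have hutc : Continuous ut := by
    refine continuous_pi fun j => continuous_const.mul ?_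
    exact (continuous_apply j).comp (continuous_src.comp (continuous_coord _))
  have hute : ∀ (h : Gp p) x j, ut (h • x) j = rt p (Multiplicative.toAdd h) * ut x j := by
    intro h x j
    simp only [hut]
    rw [src_equiv]; ring
  have hutn : ∀ x : (E (Gp p) (2 * m + 1 + 1)).Realization,
      (∀ g : Gp p, x.coord (⟨g, tp m⟩ : EVertex (Gp p) (2 * m + 1 + 1)) = 0) → R ≤ ‖ut x‖ := by
    intro x hx
    have h1 : ut x = (C : ℂ) • src x.coord := rfl
    rw [h1, norm_smul, Complex.norm_real, Real.norm_of_nonneg hC0]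
    have h2 := hδ' x hx
    calc R ≤ |R| := le_abs_self R
      _ = C * δ := by rw [hC]; field_simp
      _ ≤ C * ‖src x.coord‖ := mul_le_mul_of_nonneg_left h2 hC0
  -- the pieces
  set A : Gp p → Set (E (Gp p) (2 * m + 1 + 1)).Realization :=
    fun k => {x | ∀ g : Gp p, g ≠ k → x.coord (⟨g, tp m⟩ : EVertex (Gp p) (2 * m + 1 + 1)) = 0} with hA
  set ψ : Gp p → (E (Gp p) (2 * m + 1 + 1)).Realization → (Fin (m + 1) → ℂ) :=
    fun k x j => rt p (a j * Multiplicative.toAdd k)
      * G (fun i => rt p (-Multiplicative.toAdd k) * ut x i) j with hψ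
  have hψc : ∀ k, Continuous (ψ k) := by
    intro k
    refine continuous_pi fun j => continuous_const.mul ?_
    refine (continuous_apply j).comp (hG.comp ?_)
    exact continuous_pi fun i => continuous_const.mul ((continuous_apply i).comp hutc)
  have hbase : ∀ k x, (∀ g : Gp p, x.coord (⟨g, tp m⟩ : EVertex (Gp p) (2 * m + 1 + 1)) = 0) →
      ψ k x = T (ut x) := by
    intro k x hx
    funext j
    have h1 : ‖(fun i => rt p (-Multiplicative.toAdd k) * ut x i)‖ = ‖ut x‖ := by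
      have : (fun i => rt p (-Multiplicative.toAdd k) * ut x i)
          = rt p (-Multiplicative.toAdd k) • ut x := rfl
      rw [this, norm_smul, norm_rt, one_mul]
    simp only [hψ]
    rw [hGT _ (by rw [h1]; exact hutn x hx), hT, ← mul_assoc, ← rt_add]
    have : a j * Multiplicative.toAdd k + a j * -Multiplicative.toAdd k = 0 := by ring
    rw [this, rt_zero, one_mul]
  have hAex : ∀ x, ∃ k, x ∈ A k := by
    intro x
    by_cases h : ∃ k : Gp p, x.coord (⟨k, tp m⟩ : EVertex (Gp p) (2 * m + 1 + 1)) ≠ 0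
    · obtain ⟨k, hk⟩ := h
      refine ⟨k, fun g hg => ?_⟩
      by_contra hcon
      obtain ⟨s, hs, hx⟩ := x.support_subset
      exact hg (congrArg EVertex.elt (hs.2 _ (hx _ hcon) _ (hx _ hk) rfl))
    · push Not at h
      exact ⟨1, fun g _ => h g⟩
  have hagree : ∀ k k' x, x ∈ A k → x ∈ A k' → ψ k x = ψ k' x := by
    intro k k' x hk hk'
    by_cases h : k = k'
    · rw [h]
    · have hx : ∀ g : Gp p, x.coord (⟨g, tp m⟩ : EVertex (Gp p) (2 * m + 1 + 1)) = 0 := by
        intro g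
        by_cases hg : g = k
        · exact hk' g (by rw [hg]; exact h)
        · exact hk g hg
      rw [hbase k x hx, hbase k' x hx]
  choose κ hκ using hAex
  set Φ : (E (Gp p) (2 * m + 1 + 1)).Realization → (Fin (m + 1) → ℂ) := fun x => ψ (κ x) x with hΦ
  have hΦA : ∀ k x, x ∈ A k → Φ x = ψ k x := fun k x hx => hagree _ _ x (hκ x) hx
  refine no_map m a ha Φ ?_ ?_ ?_
  · refine LocallyFinite.continuous (f := A) (locallyFinite_of_finite A) ?_ ?_ ?_
    · ext x; simp only [Set.mem_iUnion, Set.mem_univ, iff_true]; exact ⟨κ x, hκ x⟩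
    · intro k
      have : A k = ⋂ g : Gp p, ⋂ (_ : g ≠ k),
          {x | x.coord (⟨g, tp m⟩ : EVertex (Gp p) (2 * m + 1 + 1)) = 0} := by
        ext x; simp [hA]
      rw [this]
      exact isClosed_iInter fun g => isClosed_iInter fun _ =>
        isClosed_eq ((continuous_apply _).comp (continuous_coord _)) continuous_const
    · intro k
      exact (hψc k).continuousOn.congr fun x hx => hΦA k x hx
  · intro h x j
    have hx : h • x ∈ A (h * κ x) := by
      intro g hg
      have : h⁻¹ * g ≠ κ x := by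
        intro hcon
        exact hg (by rw [← hcon, mul_inv_cancel_left])
      exact hκ x (h⁻¹ * g) this
    rw [hΦA _ _ hx]
    change rt p (a j * Multiplicative.toAdd (h * κ x))
      * G (fun i => rt p (-Multiplicative.toAdd (h * κ x)) * ut (h • x) i) j
      = rt p (a j * Multiplicative.toAdd h) * (rt p (a j * Multiplicative.toAdd (κ x))
      * G (fun i => rt p (-Multiplicative.toAdd (κ x)) * ut x i) j)
    have e1 : (fun i => rt p (-Multiplicative.toAdd (h * κ x)) * ut (h • x) i)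
        = fun i => rt p (-Multiplicative.toAdd (κ x)) * ut x i := by
      funext i
      rw [hute, ← mul_assoc, ← rt_add, toAdd_mul]
      congr 2
      ring
    rw [e1, ← mul_assoc, ← rt_add, toAdd_mul]
    congr 2
    ring
  · intro x hx
    apply h0 (fun i => rt p (-Multiplicative.toAdd (κ x)) * ut x i)
    funext j
    have h1 := congrFun hx j
    change rt p (a j * Multiplicative.toAdd (κ x))
      * G (fun i => rt p (-Multiplicative.toAdd (κ x)) * ut x i) j = 0 at h1
    rcases mul_eq_zero.1 h1 with h2 | h2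
    · exact absurd h2 (rt_ne_zero _)
    · exact h2

end Pool.Agent.PQP.H43
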