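import Pool.Agent.Helper43_PQP.Circ
import Pool.Agent.Helper73_CrossIndex.Dold

/-!
# No equivariant map from the join to the nonzero vectors (for the row DOL of PQP)
-/

set_option autoImplicit false

noncomputable section

namespace Pool.Agent.PQP.H43

open Pool.Agent.Helper73_CrossIndex

/-- the cyclic group -/
abbrev Gp (p : ℕ) := Multiplicative (ZMod p)

variable {p : ℕ} [NeZero p]

/-- index of the complex coordinate of a level -/
def hlf {m : ℕ} (i : Fin (2 * m + 1 + 1)) : Fin (m + 1) := ⟨i.val / 2, by omega⟩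

/-- unnormalised barycentric coordinates of a vector -/
def tg (m : ℕ) (a : Fin (m + 1) → ZMod p) (y : Fin (m + 1) → ℂ) (v : EVertex (Gp p) (2 * m + 1)) : ℝ :=
  bmp p (v.lev.val % 2) (a (hlf v.lev) * Multiplicative.toAdd v.elt) (y (hlf v.lev))

lemma tg_nonneg (m : ℕ) (a : Fin (m + 1) → ZMod p) (y : Fin (m + 1) → ℂ)
    (v : EVertex (Gp p) (2 * m + 1)) : 0 ≤ tg m a y v := bmp_nonneg _ _ _

instance : Fintype (Gp p) := inferInstanceAs (Fintype (ZMod p))

lemma tg_pos_exists (m : ℕ) (a : Fin (m + 1) → ZMod p) (ha : ∀ j, IsUnit (a j)) (hp : 1 ≤ p)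
    (y : Fin (m + 1) → ℂ) (hy : y ≠ 0) : ∃ v, 0 < tg m a y v := by
  obtain ⟨j, hj⟩ := Function.ne_iff.1 hy
  obtain ⟨b, hb, k, hk⟩ := bmp_exists (p := p) (y j) hj hp
  obtain ⟨u, hu⟩ := ha j
  refine ⟨⟨Multiplicative.ofAdd ((↑(u⁻¹) : ZMod p) * k), ⟨2 * j.val + b, by omega⟩⟩, ?_⟩
  have h1 : hlf (m := m) ⟨2 * j.val + b, by omega⟩ = j := by
    apply Fin.ext
    change (2 * j.val + b) / 2 = j.val
    omega
  have h2 : (2 * j.val + b) % 2 = b := by omega
  unfold tg
  simp only [h1, h2]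
  have h3 : a j * ((↑(u⁻¹) : ZMod p) * k) = k := by
    rw [← mul_assoc, ← hu, Units.mul_inv, one_mul]
  change 0 < bmp p b (a j * ((↑(u⁻¹) : ZMod p) * k)) (y j)
  rw [h3]
  exact hk

lemma tg_unique (m : ℕ) (a : Fin (m + 1) → ZMod p) (ha : ∀ j, IsUnit (a j)) (hp : 1 ≤ p)
    (y : Fin (m + 1) → ℂ) (v w : EVertex (Gp p) (2 * m + 1)) (hv : 0 < tg m a y v)
    (hw : 0 < tg m a y w) (h : v.lev = w.lev) : v = w := by
  unfold tg at hv hw
  rw [← h] at hw
  have h1 := bmp_unique _ _ _ _ hp hv hw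
  have h2 : Multiplicative.toAdd v.elt = Multiplicative.toAdd w.elt := (ha _).mul_left_cancel h1
  exact EVertex.ext (Multiplicative.toAdd.injective h2) h

lemma continuous_tg (m : ℕ) (a : Fin (m + 1) → ZMod p) (v : EVertex (Gp p) (2 * m + 1)) :
    Continuous fun y => tg m a y v := by
  unfold tg
  exact (continuous_bmp _ _).comp (continuous_apply _)

lemma tg_equiv (m : ℕ) (a : Fin (m + 1) → ZMod p) (h : Gp p) (y y' : Fin (m + 1) → ℂ)
    (hy : ∀ j, y' j = rt p (a j * Multiplicative.toAdd h) * y j)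
    (v : EVertex (Gp p) (2 * m + 1)) : tg m a y' v = tg m a y (h⁻¹ • v) := by
  unfold tg
  change _ = bmp p (v.lev.val % 2) (a (hlf v.lev) * Multiplicative.toAdd (h⁻¹ * v.elt)) (y (hlf v.lev))
  rw [hy]
  have : a (hlf v.lev) * Multiplicative.toAdd v.elt = a (hlf v.lev) * Multiplicative.toAdd h
      + a (hlf v.lev) * Multiplicative.toAdd (h⁻¹ * v.elt) := by
    rw [toAdd_mul, toAdd_inv]; ring
  rw [this, bmp_equiv]

/-- point of the realisation of a nonzero vector -/
def enc (m : ℕ) (a : Fin (m + 1) → ZMod p) (ha : ∀ j, IsUnit (a j)) (hp : 1 ≤ p)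
    (y : Fin (m + 1) → ℂ) (hy : y ≠ 0) : (E (Gp p) (2 * m + 1)).Realization where
  coord := fun v : EVertex (Gp p) (2 * m + 1) => tg m a y v / ∑ w, tg m a y w
  nonneg := fun v : EVertex (Gp p) (2 * m + 1) =>
    div_nonneg (tg_nonneg m a y v) (Finset.sum_nonneg fun w _ => tg_nonneg m a y w)
  sum_eq_one := by
    obtain ⟨v, hv⟩ := tg_pos_exists m a ha hp y hy
    have hpos : 0 < ∑ w, tg m a y w :=
      Finset.sum_pos' (fun w _ => tg_nonneg m a y w) ⟨v, Finset.mem_univ _, hv⟩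
    change ∑ v : EVertex (Gp p) (2 * m + 1), tg m a y v / ∑ w, tg m a y w = 1
    rw [← Finset.sum_div, div_self hpos.ne']
  support_subset := by
    classical
    obtain ⟨v, hv⟩ := tg_pos_exists m a ha hp y hy
    refine ⟨(Finset.univ.filter (fun v : EVertex (Gp p) (2 * m + 1) => 0 < tg m a y v) :
      Finset (EVertex (Gp p) (2 * m + 1))), ⟨⟨v, Finset.mem_filter.2 ⟨Finset.mem_univ _, hv⟩⟩, ?_⟩, ?_⟩
    · intro v hv w hw hvw
      exact tg_unique m a ha hp y v w (Finset.mem_filter.1 hv).2 (Finset.mem_filter.1 hw).2 hvw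
    · intro v hv
      refine Finset.mem_filter.2 ⟨Finset.mem_univ _, ?_⟩
      by_contra hcon
      apply hv
      have h0 : tg m a y v = 0 := le_antisymm (not_lt.1 hcon) (tg_nonneg m a y v)
      change tg m a y v / _ = 0
      rw [h0, zero_div]

/-- **no equivariant map** from the join to the nonzero vectors -/
theorem no_map [Fact p.Prime] (m : ℕ) (a : Fin (m + 1) → ZMod p) (ha : ∀ j, IsUnit (a j))
    (Φ : (E (Gp p) (2 * m + 1 + 1)).Realization → (Fin (m + 1) → ℂ)) (hc : Continuous Φ)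
    (hΦ : ∀ (h : Gp p) x j, Φ (h • x) j = rt p (a j * Multiplicative.toAdd h) * Φ x j)
    (h0 : ∀ x, Φ x ≠ 0) : False := by
  have hp : 1 ≤ p := (Fact.out : p.Prime).one_le
  have hnt : Nontrivial (Gp p) := inferInstanceAs (Nontrivial (ZMod p))
  refine no_equivariant_map (G := Gp p) (2 * m + 1) (fun x => enc m a ha hp (Φ x) (h0 x)) ?_ ?_
  · rw [continuous_induced_rng]
    change Continuous fun x => fun v : EVertex (Gp p) (2 * m + 1) =>
      tg m a (Φ x) v / ∑ w, tg m a (Φ x) w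
    refine continuous_pi fun v => ?_
    refine Continuous.div ((continuous_tg m a v).comp hc) ?_ fun x => ?_
    · exact continuous_finsetSum _ fun w _ => (continuous_tg m a w).comp hc
    · obtain ⟨v, hv⟩ := tg_pos_exists m a ha hp (Φ x) (h0 x)
      exact (Finset.sum_pos' (fun w _ => tg_nonneg m a (Φ x) w) ⟨v, Finset.mem_univ _, hv⟩).ne'
  · intro h x
    refine GComplex.Realization.ext (funext fun v => ?_)
    change tg m a (Φ (h • x)) v / ∑ w, tg m a (Φ (h • x)) w
      = tg m a (Φ x) (h⁻¹ • v) / ∑ w, tg m a (Φ x) w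
    have e : ∀ w : EVertex (Gp p) (2 * m + 1), tg m a (Φ (h • x)) w = tg m a (Φ x) (h⁻¹ • w) :=
      fun w => tg_equiv m a h (Φ x) (Φ (h • x)) (fun j => hΦ h x j) w
    rw [e v]
    congr 1
    rw [← Equiv.sum_comp (MulAction.toPerm (h⁻¹ : Gp p)) (fun w => tg m a (Φ x) w)]
    exact Finset.sum_congr rfl fun w _ => e w

end Pool.Agent.PQP.H43
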